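import Pool.Agent.H.MP_9fb650_an.D

set_option autoImplicit false

namespace Pool.Agent.Results.MP_9fb650_an.InfOrder

open Pool.Agent.H.MP_9fb650_an Pool.Agent.H.MP_f0f681_an

/-- The spectrum of f in the algebra B(G) (pointwise operations). -/
def spec (G : Type) [Group G] (f : G → ℂ) : Set ℂ :=
  {z : ℂ | ¬∃ h ∈ BG G, ∀ g : G, (f g - z) * h g = 1}

/-- The elements of B(G) with natural spectrum. -/
def NS (G : Type) [Group G] : Set (G → ℂ) :=
  {f | f ∈ BG G ∧ spec G f = closure (Set.range f)}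

/-- If the discrete group G has an element of infinite order, every element of the
Fourier–Stieltjes algebra of G is a sum of two elements with natural spectrum. -/
theorem result : ∀ (G : Type) [Group G], (∃ s : G, ¬IsOfFinOrder s) →
    ∀ f ∈ BG G, ∃ f₁ ∈ NS G, ∃ f₂ ∈ NS G, f = f₁ + f₂ := by
  rintro G _ ⟨s, hs⟩ f hf
  obtain ⟨f₁, f₂, h1, h2, h3⟩ := main (injective_zpow_iff_not_isOfFinOrder.2 hs) ⟨f, hf⟩
  exact ⟨f₁.1, ⟨f₁.2, natural f₁ h1⟩, f₂.1, ⟨f₂.2, natural f₂ h2⟩, congrArg Subtype.val h3⟩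

end Pool.Agent.Results.MP_9fb650_an.InfOrder
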